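import Mathlib

/-!
# MP_87e037_al, Q1: nonzero lowering maps exist for every sequence satisfying (*)

Let `θ_0, …, θ_d` (`d ≥ 1`) be pairwise distinct elements of a field satisfying condition (*).
Put `ϑ_i = ∑_{h<i} (θ_h - θ_{d-h}) / (θ_0 - θ_d)`.  We show that there is a linear map `Ψ` on the
polynomials of degree at most `d` with `Ψ τ_i = ϑ_i τ_{i-1}` and `Ψ ρ_i = ϑ_i ρ_{i-1}` for
`1 ≤ i ≤ d` and `Ψ 1 = 0`.  Since `ϑ_1 = 1`, it is a nonzero lowering map.

Idea.  Condition (*) gives `β, γ, ϱ` with `θ_{i-1} - β θ_i + θ_{i+1} = γ` and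
`θ_{i-1}^2 - β θ_{i-1} θ_i + θ_i^2 - γ (θ_{i-1} + θ_i) = ϱ`; the reversed sequence satisfies the same
relations.  With suitable scalars `c, g`, the map `Ψ` is the unique solution of
`λ²Ψ - β λΨλ + Ψλ² - γ (λΨ + Ψλ) - ϱ Ψ = c λ + g`, `Ψ 1 = 0`, `Ψ λ = 1`, which is symmetric in the
sequence and its reversal.
-/

set_option autoImplicit false
open Polynomial

namespace Pool.Agent.Results.MP_87e037_al.AlwaysExists

variable {K : Type*} [Field K]

/-- `τ_i = ∏_{h<i} (λ - θ_h)`. -/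
noncomputable def tau (θ : ℕ → K) (i : ℕ) : K[X] := ∏ h ∈ Finset.range i, (X - C (θ h))

/-- `ρ_i = ∏_{h<i} (λ - θ_{d-h})`. -/
noncomputable def rho (d : ℕ) (θ : ℕ → K) (i : ℕ) : K[X] :=
  ∏ h ∈ Finset.range i, (X - C (θ (d - h)))

/-- Condition (*): the ratio `(θ_{i-2} - θ_{i+1}) (θ_{i-1} - θ_i)⁻¹` takes the same value for all `i`
with `2 ≤ i ≤ d - 1`. -/
def Star (d : ℕ) (θ : ℕ → K) : Prop :=
  ∀ i j : ℕ, 2 ≤ i → i + 1 ≤ d → 2 ≤ j → j + 1 ≤ d →
    (θ (i - 2) - θ (i + 1)) * (θ (i - 1) - θ i)⁻¹ =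
      (θ (j - 2) - θ (j + 1)) * (θ (j - 1) - θ j)⁻¹

/-- Lowering maps on the space of polynomials of degree at most `d`. -/
def IsLowering (d : ℕ) (θ : ℕ → K) (Ψ : degreeLE K (d : WithBot ℕ) →ₗ[K] degreeLE K (d : WithBot ℕ)) :
    Prop :=
  (∀ p : degreeLE K (d : WithBot ℕ), (p : K[X]) = tau θ 0 → Ψ p = 0) ∧
  (∀ p : degreeLE K (d : WithBot ℕ), (p : K[X]) = rho d θ 0 → Ψ p = 0) ∧
  (∀ i : ℕ, 1 ≤ i → i ≤ d → ∀ p : degreeLE K (d : WithBot ℕ), (p : K[X]) = tau θ i →
    (Ψ p : K[X]) ∈ Submodule.span K {tau θ (i - 1)}) ∧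
  (∀ i : ℕ, 1 ≤ i → i ≤ d → ∀ p : degreeLE K (d : WithBot ℕ), (p : K[X]) = rho d θ i →
    (Ψ p : K[X]) ∈ Submodule.span K {rho d θ (i - 1)})

/-! ### The recursively defined map -/

/-- images of the monomials -/
noncomputable def mon (β γ ϱ c g e : K) : ℕ → K[X]
  | 0 => 0
  | 1 => C e
  | n + 2 => C β * X * mon β γ ϱ c g e (n + 1) - X ^ 2 * mon β γ ϱ c g e n
      + C γ * (X * mon β γ ϱ c g e n + mon β γ ϱ c g e (n + 1)) + C ϱ * mon β γ ϱ c g e n
      + C c * X ^ (n + 1) + C g * X ^ n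

/-- the map on all polynomials -/
noncomputable def psi (β γ ϱ c g e : K) : K[X] →ₗ[K] K[X] :=
  Polynomial.lsum fun n => (LinearMap.id : K →ₗ[K] K).smulRight (mon β γ ϱ c g e n)

lemma psi_monomial (β γ ϱ c g e : K) (n : ℕ) (a : K) :
    psi β γ ϱ c g e (monomial n a) = C a * mon β γ ϱ c g e n := by
  unfold psi
  rw [Polynomial.lsum_apply, Polynomial.sum_monomial_index]
  · simp [Polynomial.smul_eq_C_mul]
  · simp

lemma psi_rel (β γ ϱ c g e : K) (p : K[X]) :
    psi β γ ϱ c g e (X ^ 2 * p) = C β * X * psi β γ ϱ c g e (X * p)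
      - X ^ 2 * psi β γ ϱ c g e p + C γ * (X * psi β γ ϱ c g e p + psi β γ ϱ c g e (X * p))
      + C ϱ * psi β γ ϱ c g e p + C c * X * p + C g * p := by
  induction p using Polynomial.induction_on' with
  | add p q hp hq =>
    rw [mul_add, mul_add, map_add, map_add, map_add, hp, hq]
    ring
  | monomial n a =>
    have h2 : (X : K[X]) ^ 2 * monomial n a = monomial (n + 2) a := by
      rw [X_pow_mul_monomial]
    have h1 : (X : K[X]) * monomial n a = monomial (n + 1) a := by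
      rw [X_mul_monomial]
    rw [h2, h1, psi_monomial, psi_monomial, psi_monomial]
    rw [show mon β γ ϱ c g e (n + 2) = C β * X * mon β γ ϱ c g e (n + 1)
      - X ^ 2 * mon β γ ϱ c g e n
      + C γ * (X * mon β γ ϱ c g e n + mon β γ ϱ c g e (n + 1)) + C ϱ * mon β γ ϱ c g e n
      + C c * X ^ (n + 1) + C g * X ^ n from rfl]
    rw [← C_mul_X_pow_eq_monomial]
    ring

lemma psi_one (β γ ϱ c g e : K) : psi β γ ϱ c g e 1 = 0 := by
  have := psi_monomial β γ ϱ c g e 0 1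
  rw [monomial_zero_one] at this
  rw [this]
  simp [mon]

lemma psi_X (β γ ϱ c g e : K) : psi β γ ϱ c g e X = C e := by
  have := psi_monomial β γ ϱ c g e 1 1
  rw [monomial_one_one_eq_X] at this
  rw [this]
  simp [mon]

/-- The key computation, for one of the two sequences. -/
lemma psi_tau {β γ ϱ c g : K} {d : ℕ} {a ε : ℕ → K} (h0 : ε 0 = 0)
    (hγ : ∀ i, i + 2 ≤ d → a i - β * a (i + 1) + a (i + 2) = γ)
    (hϱ : ∀ i, i + 1 ≤ d → a i ^ 2 - β * a i * a (i + 1) + a (i + 1) ^ 2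
      - γ * (a i + a (i + 1)) = ϱ)
    (hc : ∀ i, i + 2 ≤ d → ε i - β * ε (i + 1) + ε (i + 2) = c)
    (hg : ∀ i, i + 2 ≤ d → ε i * (a i - a (i + 1)) +
      ε (i + 1) * (a i + a (i + 1) - β * a i - γ) - c * a i = g)
    (i : ℕ) : (i + 1 ≤ d → psi β γ ϱ c g (ε 1) (tau a (i + 1)) = C (ε (i + 1)) * tau a i) ∧
      (i + 2 ≤ d → psi β γ ϱ c g (ε 1) (tau a (i + 2)) = C (ε (i + 2)) * tau a (i + 1)) := by
  have hsucc : ∀ n, tau a (n + 1) = tau a n * (X - C (a n)) := by
    intro n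
    unfold tau
    rw [Finset.prod_range_succ]
  have htau0 : tau a 0 = 1 := by simp [tau]
  set Ψ := psi β γ ϱ c g (ε 1) with hΨ
  have hC : ∀ (s : K) (p : K[X]), Ψ (C s * p) = C s * Ψ p := by
    intro s p
    rw [← smul_eq_C_mul, map_smul, smul_eq_C_mul]
  have hrel := psi_rel β γ ϱ c g (ε 1)
  rw [← hΨ] at hrel
  -- the case of `τ_1`
  have ht1 : Ψ (tau a 1) = C (ε 1) * tau a 0 := by
    rw [hsucc, htau0, one_mul, map_sub, hΨ, psi_X]
    have : psi β γ ϱ c g (ε 1) (C (a 0)) = 0 := by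
      have := hC (a 0) 1
      rw [mul_one, hΨ, psi_one, mul_zero] at this
      exact this
    rw [this, sub_zero, mul_one]
  -- the step
  have step : ∀ n, n + 2 ≤ d → (Ψ (tau a n) = if n = 0 then 0 else C (ε n) * tau a (n - 1)) →
      Ψ (tau a (n + 1)) = C (ε (n + 1)) * tau a n →
      Ψ (tau a (n + 2)) = C (ε (n + 2)) * tau a (n + 1) := by
    intro n hn h1 h2
    have e1 : tau a (n + 2) = X ^ 2 * tau a n - C (a n + a (n + 1)) * (X * tau a n) +
        C (a n * a (n + 1)) * tau a n := by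
      rw [hsucc, hsucc, C_add, C_mul]
      ring
    have e2 : X * tau a n = tau a (n + 1) + C (a n) * tau a n := by
      rw [hsucc]; ring
    have e3 : Ψ (X * tau a n) = C (ε (n + 1)) * tau a n + C (a n) * Ψ (tau a n) := by
      rw [e2, map_add, hC, h2]
    have hc' := hc n hn
    have hg' := hg n hn
    rw [e1, map_add, map_sub, hC, hC, hrel, e3]
    rcases Nat.eq_zero_or_pos n with rfl | hpos
    · rw [if_pos rfl] at h1
      rw [h1, hsucc, htau0]
      rw [h0] at hc' hg'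
      have f1 : ε (0 + 2) = c + β * ε (0 + 1) := by linear_combination hc'
      have f2 : g = ε (0 + 1) * (a 0 + a (0 + 1) - β * a 0 - γ) - c * a 0 := by
        linear_combination -hg'
      rw [f1, f2]
      simp only [C_add, C_sub, C_mul]
      ring
    · obtain ⟨m, rfl⟩ : ∃ m, n = m + 1 := ⟨n - 1, by omega⟩
      rw [if_neg (by omega), Nat.add_sub_cancel] at h1
      rw [h1, hsucc (m + 1), hsucc m]
      have hγ' := hγ m (by omega)
      have hϱ' := hϱ m (by omega)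
      have f1 : ε (m + 1 + 2) = c + β * ε (m + 1 + 1) - ε (m + 1) := by linear_combination hc'
      have f2 : g = ε (m + 1) * (a (m + 1) - a (m + 1 + 1)) +
          ε (m + 1 + 1) * (a (m + 1) + a (m + 1 + 1) - β * a (m + 1) - γ) - c * a (m + 1) := by
        linear_combination -hg'
      have f3 : a (m + 1 + 1) = γ + β * a (m + 1) - a m := by
        linear_combination hγ'
      have f4 : ϱ = a m ^ 2 - β * a m * a (m + 1) + a (m + 1) ^ 2 - γ * (a m + a (m + 1)) := by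
        linear_combination -hϱ'
      rw [f1, f2, f4, f3]
      simp only [C_add, C_sub, C_mul, C_pow]
      ring
  induction i with
  | zero =>
    refine ⟨fun _ => ht1, fun h => ?_⟩
    apply step 0 h _ ht1
    rw [if_pos rfl, htau0, hΨ, psi_one]
  | succ n ih =>
    refine ⟨fun h => ih.2 (by omega), fun h => ?_⟩
    apply step (n + 1) h _ (ih.2 (by omega))
    rw [if_neg (by omega), Nat.add_sub_cancel]
    exact ih.1 (by omega)

/-- a quantity that does not depend on the index -/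
lemma g_const {β γ c : K} {d : ℕ} {a ε : ℕ → K}
    (hγ : ∀ i, i + 2 ≤ d → a i - β * a (i + 1) + a (i + 2) = γ)
    (hc : ∀ i, i + 2 ≤ d → ε i - β * ε (i + 1) + ε (i + 2) = c) (i : ℕ) (hi : i + 2 ≤ d) :
    ε i * (a i - a (i + 1)) + ε (i + 1) * (a i + a (i + 1) - β * a i - γ) - c * a i =
      ε 0 * (a 0 - a 1) + ε 1 * (a 0 + a 1 - β * a 0 - γ) - c * a 0 := by
  induction i with
  | zero => rfl
  | succ n ih =>
    rw [← ih (by omega)]
    have h1 := hγ n (by omega)
    have h2 := hc n (by omega)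
    linear_combination (ε (n + 1 + 1) - ε (n + 1)) * h1 + (a (n + 1) - a n) * h2

/-- the images of the monomials have small degree -/
lemma mon_mem (β γ ϱ c g e : K) (n : ℕ) : (mon β γ ϱ c g e n).natDegree ≤ n ∧
    (mon β γ ϱ c g e (n + 1)).natDegree ≤ n + 1 := by
  induction n with
  | zero => simp [mon]
  | succ n ih =>
    refine ⟨ih.2, ?_⟩
    show (C β * X * mon β γ ϱ c g e (n + 1) - X ^ 2 * mon β γ ϱ c g e n
      + C γ * (X * mon β γ ϱ c g e n + mon β γ ϱ c g e (n + 1)) + C ϱ * mon β γ ϱ c g e n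
      + C c * X ^ (n + 1) + C g * X ^ n).natDegree ≤ n + 1 + 1
    have h1 := ih.1
    have h2 := ih.2
    have hX : ∀ (q : K[X]) (m : ℕ), q.natDegree ≤ m → (X * q).natDegree ≤ m + 1 := by
      intro q m hq
      refine natDegree_mul_le.trans ?_
      rw [add_comm]
      exact add_le_add hq natDegree_X_le
    have hCm : ∀ (s : K) (q : K[X]) (m : ℕ), q.natDegree ≤ m → (C s * q).natDegree ≤ m :=
      fun s q m hq => (natDegree_C_mul_le s q).trans hq
    refine natDegree_add_le_of_degree_le (natDegree_add_le_of_degree_le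
      (natDegree_add_le_of_degree_le (natDegree_add_le_of_degree_le
        ((natDegree_sub_le_of_le (m := n + 1 + 1) (n := n + 1 + 1) ?_ ?_).trans_eq (max_self _))
          ?_) ?_) ?_) ?_
    · rw [mul_assoc]
      exact hCm _ _ _ (hX _ _ h2)
    · rw [pow_two, mul_assoc]
      exact hX _ _ (hX _ _ h1)
    · exact hCm _ _ _ (natDegree_add_le_of_degree_le ((hX _ _ h1).trans (by omega))
        (h2.trans (by omega)))
    · exact hCm _ _ _ (h1.trans (by omega))
    · exact (natDegree_C_mul_X_pow_le _ _).trans (by omega)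
    · exact (natDegree_C_mul_X_pow_le _ _).trans (by omega)

lemma psi_mem (β γ ϱ c g e : K) (d : ℕ) (p : K[X]) (hp : p ∈ degreeLE K (d : WithBot ℕ)) :
    psi β γ ϱ c g e p ∈ degreeLE K (d : WithBot ℕ) := by
  unfold psi
  rw [Polynomial.lsum_apply]
  unfold Polynomial.sum
  apply Submodule.sum_mem
  intro n hn
  have h1 : n ≤ d := by
    have h2 : p.degree ≤ (d : WithBot ℕ) := mem_degreeLE.mp hp
    have h3 := le_degree_of_mem_supp n hn
    exact_mod_cast h3.trans h2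
  simp only [LinearMap.smulRight_apply, LinearMap.id_apply]
  apply Submodule.smul_mem
  rw [mem_degreeLE]
  refine degree_le_of_natDegree_le ?_
  exact (mon_mem β γ ϱ c g e n).1.trans h1

/-- The main theorem, with the explicit coefficients `ϑ_i`. -/
theorem exists_psi (d : ℕ) (θ : ℕ → K) (hinj : ∀ i j, i ≤ d → j ≤ d → θ i = θ j → i = j)
    (hstar : Star d θ) (hd : 1 ≤ d) :
    ∃ Ψ : K[X] →ₗ[K] K[X], (∀ p ∈ degreeLE K (d : WithBot ℕ), Ψ p ∈ degreeLE K (d : WithBot ℕ)) ∧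
      Ψ 1 = 0 ∧ ∀ i, 1 ≤ i → i ≤ d →
      Ψ (tau θ i) = C ((∑ h ∈ Finset.range i, (θ h - θ (d - h))) / (θ 0 - θ d)) * tau θ (i - 1) ∧
      Ψ (rho d θ i) = C ((∑ h ∈ Finset.range i, (θ h - θ (d - h))) / (θ 0 - θ d)) *
        rho d θ (i - 1) := by
  -- the recurrence
  set β : K := (θ 0 - θ 3) * (θ 1 - θ 2)⁻¹ - 1 with hβ
  have hrec : ∀ i, i + 3 ≤ d → θ i - θ (i + 3) = (β + 1) * (θ (i + 1) - θ (i + 2)) := by
    intro i hi
    have h1 := hstar (i + 2) 2 (by omega) (by omega) (by omega) (by omega)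
    have h2 : θ (i + 1) - θ (i + 2) ≠ 0 := by
      intro h
      have := hinj (i + 1) (i + 2) (by omega) (by omega) (sub_eq_zero.mp h)
      omega
    have e1 : i + 2 - 2 = i := by omega
    have e2 : i + 2 - 1 = i + 1 := by omega
    rw [e1, e2] at h1
    norm_num at h1
    rw [hβ, sub_add_cancel, ← h1, mul_assoc, inv_mul_cancel₀ h2, mul_one]
  set γ : K := θ 0 - β * θ 1 + θ 2 with hγdef
  have hγ : ∀ i, i + 2 ≤ d → θ i - β * θ (i + 1) + θ (i + 2) = γ := by
    intro i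
    induction i with
    | zero => intro _; rfl
    | succ n ih =>
      intro hn
      have h1 := ih (by omega)
      have h2 := hrec n (by omega)
      linear_combination h1 - h2
  set ϱ : K := θ 0 ^ 2 - β * θ 0 * θ 1 + θ 1 ^ 2 - γ * (θ 0 + θ 1) with hϱdef
  have hϱ : ∀ i, i + 1 ≤ d → θ i ^ 2 - β * θ i * θ (i + 1) + θ (i + 1) ^ 2
      - γ * (θ i + θ (i + 1)) = ϱ := by
    intro i
    induction i with
    | zero => intro _; rfl
    | succ n ih =>
      intro hn
      have h1 := ih (by omega)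
      have h2 := hγ n (by omega)
      linear_combination h1 + (θ (n + 2) - θ n) * h2
  -- the reversed sequence
  set b : ℕ → K := fun i => θ (d - i) with hb
  have hγb : ∀ i, i + 2 ≤ d → b i - β * b (i + 1) + b (i + 2) = γ := by
    intro i hi
    have h1 := hγ (d - (i + 2)) (by omega)
    have e1 : d - (i + 2) + 2 = d - i := by omega
    have e2 : d - (i + 2) + 1 = d - (i + 1) := by omega
    rw [e1, e2] at h1
    show θ (d - i) - β * θ (d - (i + 1)) + θ (d - (i + 2)) = γ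
    linear_combination h1
  have hϱb : ∀ i, i + 1 ≤ d → b i ^ 2 - β * b i * b (i + 1) + b (i + 1) ^ 2
      - γ * (b i + b (i + 1)) = ϱ := by
    intro i hi
    have h1 := hϱ (d - (i + 1)) (by omega)
    have e1 : d - (i + 1) + 1 = d - i := by omega
    rw [e1] at h1
    show θ (d - i) ^ 2 - β * θ (d - i) * θ (d - (i + 1)) + θ (d - (i + 1)) ^ 2
      - γ * (θ (d - i) + θ (d - (i + 1))) = ϱ
    linear_combination h1
  -- the coefficients
  set ε : ℕ → K := fun i => ∑ h ∈ Finset.range i, (θ h - θ (d - h)) with hε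
  have hε0 : ε 0 = 0 := by simp [hε]
  have hεs : ∀ i, ε (i + 1) = ε i + (θ i - b i) := by
    intro i
    simp only [hε, Finset.sum_range_succ, hb]
  set c : K := ε 0 - β * ε 1 + ε 2 with hcdef
  have hc : ∀ i, i + 2 ≤ d → ε i - β * ε (i + 1) + ε (i + 2) = c := by
    intro i
    induction i with
    | zero => intro _; rfl
    | succ n ih =>
      intro hn
      have h1 := ih (by omega)
      have h2 := hγ n (by omega)
      have h3 := hγb n (by omega)
      have h4 := hεs n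
      have h5 := hεs (n + 1)
      have h6 := hεs (n + 2)
      have h7 : ε (n + 1 + 2) = ε (n + 2 + 1) := rfl
      have h8 : ε (n + 1 + 1) = ε (n + 2) := rfl
      rw [h7, h8]
      rw [h8] at h5
      linear_combination h1 + h2 - h3 + h4 - β * h5 + h6
  set g : K := ε 0 * (θ 0 - θ 1) + ε 1 * (θ 0 + θ 1 - β * θ 0 - γ) - c * θ 0 with hgdef
  have hga := fun i hi => g_const (a := θ) (ε := ε) (d := d) hγ hc i hi
  have hgb : ∀ i, i + 2 ≤ d → ε i * (b i - b (i + 1)) +
      ε (i + 1) * (b i + b (i + 1) - β * b i - γ) - c * b i = g := by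
    intro i hi
    rw [g_const (a := b) (ε := ε) (d := d) hγb hc i hi, hgdef]
    have h1 := hεs 0
    have h2 := hεs 1
    rw [hε0] at h1
    norm_num at h1 h2
    rw [hcdef, h2, hε0, h1]
    ring
  have ha := psi_tau (β := β) (γ := γ) (ϱ := ϱ) (c := c) (g := g) (d := d) (a := θ) (ε := ε)
    hε0 hγ hϱ hc hga
  have hb' := psi_tau (β := β) (γ := γ) (ϱ := ϱ) (c := c) (g := g) (d := d) (a := b) (ε := ε)
    hε0 hγb hϱb hc hgb
  have hrho : ∀ i, rho d θ i = tau b i := fun i => rfl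
  refine ⟨(θ 0 - θ d)⁻¹ • psi β γ ϱ c g (ε 1), fun p hp => ?_, ?_, fun i hi hid => ⟨?_, ?_⟩⟩
  · rw [LinearMap.smul_apply]
    exact Submodule.smul_mem _ _ (psi_mem β γ ϱ c g (ε 1) d p hp)
  · rw [LinearMap.smul_apply, psi_one, smul_zero]
  · obtain ⟨n, rfl⟩ : ∃ n, i = n + 1 := ⟨i - 1, by omega⟩
    rw [LinearMap.smul_apply, (ha n).1 hid, Nat.add_sub_cancel, smul_eq_C_mul, ← mul_assoc, ← C_mul,
      div_eq_inv_mul]
  · obtain ⟨n, rfl⟩ : ∃ n, i = n + 1 := ⟨i - 1, by omega⟩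
    rw [LinearMap.smul_apply, hrho, hrho, (hb' n).1 hid, Nat.add_sub_cancel, smul_eq_C_mul,
      ← mul_assoc, ← C_mul, div_eq_inv_mul]

/-- **Positive answer to Q1.** For every field, every `d ≥ 1` and every pairwise distinct
`θ_0, …, θ_d` satisfying (*) there is a nonzero lowering map `Ψ`.  Moreover `Ψ` can be chosen with
`Ψ τ_i = ϑ_i τ_{i-1}` and `Ψ ρ_i = ϑ_i ρ_{i-1}` for `1 ≤ i ≤ d`, where
`ϑ_i = ∑_{h<i} (θ_h - θ_{d-h}) / (θ_0 - θ_d)`. -/
theorem result (K : Type*) [Field K] (d : ℕ) (hd : 1 ≤ d) (θ : ℕ → K)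
    (hinj : ∀ i j, i ≤ d → j ≤ d → θ i = θ j → i = j) (hstar : Star d θ) :
    ∃ Ψ : degreeLE K (d : WithBot ℕ) →ₗ[K] degreeLE K (d : WithBot ℕ),
      Ψ ≠ 0 ∧ IsLowering d θ Ψ ∧
      ∀ i, 1 ≤ i → i ≤ d →
        (∀ p : degreeLE K (d : WithBot ℕ), (p : K[X]) = tau θ i → (Ψ p : K[X]) =
          C ((∑ h ∈ Finset.range i, (θ h - θ (d - h))) / (θ 0 - θ d)) * tau θ (i - 1)) ∧
        (∀ p : degreeLE K (d : WithBot ℕ), (p : K[X]) = rho d θ i → (Ψ p : K[X]) =
          C ((∑ h ∈ Finset.range i, (θ h - θ (d - h))) / (θ 0 - θ d)) * rho d θ (i - 1)) := by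
  obtain ⟨Φ, hmem, h1, h2⟩ := exists_psi d θ hinj hstar hd
  have h0d : θ 0 - θ d ≠ 0 := by
    intro h
    have := hinj 0 d (by omega) le_rfl (sub_eq_zero.mp h)
    omega
  refine ⟨Φ.restrict hmem, ?_, ⟨?_, ?_, ?_, ?_⟩, fun i hi hid => ⟨?_, ?_⟩⟩
  · intro h0
    have hx : (tau θ 1 : K[X]) ∈ degreeLE K (d : WithBot ℕ) := by
      rw [mem_degreeLE]
      refine degree_le_of_natDegree_le ?_
      have : (tau θ 1 : K[X]) = X - C (θ 0) := by simp [tau]
      rw [this, natDegree_X_sub_C]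
      exact hd
    have h3 : (Φ.restrict hmem) ⟨tau θ 1, hx⟩ = 0 := by rw [h0]; rfl
    have h4 : Φ (tau θ 1) = 0 := congrArg Subtype.val h3
    rw [(h2 1 le_rfl hd).1] at h4
    simp [tau, h0d] at h4
  · intro p hp
    apply Subtype.ext
    show Φ p = 0
    rw [hp]
    simpa [tau] using h1
  · intro p hp
    apply Subtype.ext
    show Φ p = 0
    rw [hp]
    simpa [rho] using h1
  · intro i hi hid p hp
    show Φ p ∈ _
    rw [hp, (h2 i hi hid).1, ← smul_eq_C_mul]
    exact Submodule.smul_mem _ _ (Submodule.mem_span_singleton_self _)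
  · intro i hi hid p hp
    show Φ p ∈ _
    rw [hp, (h2 i hi hid).2, ← smul_eq_C_mul]
    exact Submodule.smul_mem _ _ (Submodule.mem_span_singleton_self _)
  · intro p hp
    show Φ p = _
    rw [hp, (h2 i hi hid).1]
  · intro p hp
    show Φ p = _
    rw [hp, (h2 i hi hid).2]

end Pool.Agent.Results.MP_87e037_al.AlwaysExists
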